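import Pool.Agent.LibL.Surf

/-!
THEOREM K++: the contract between part B (arbitrary smooth projective surfaces) and part A.
Compare `LibL/Surf.lean`. The differences: the class group need not be finitely generated, the
intersection form may be degenerate, and the Euler characteristic `χ` of the structure sheaf is
arbitrary. `IsReg`: irregularity zero; `IsPos`: `χ ≥ 1`, and if `χ = 1` then there are infinitely many
numerically trivial classes.
-/

set_option autoImplicit false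

open Pool.Agent.LibGMM Pool.Agent.LibK Pool.Agent.LibL

namespace Pool.Agent.LibLG

/-- A smooth projective surface (see the header). -/
structure SurfG (L : Type) [Field L] [Algebra ℂ L] where
  /-- the prime divisors -/
  prm : Set (DVal L)
  /-- the local rings of the closed points -/
  pts : Set (Subalgebra ℂ L)
  /-- the class group -/
  Λ : Type
  [grp : AddCommGroup Λ]
  /-- the intersection form -/
  form : Λ →ₗ[ℤ] Λ →ₗ[ℤ] ℤ
  /-- the canonical class -/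
  K : Λ
  /-- the class of a divisor -/
  cl : (prm →₀ ℤ) →+ Λ
  /-- the dimension of the space of sections of a class -/
  h0 : Λ → ℕ
  /-- an ample class -/
  A : Λ
  /-- the Euler characteristic of the structure sheaf -/
  χ : ℤ
  -- divisors, functions, points
  essFin : Algebra.EssFiniteType ℂ L
  pts_nonempty : pts.Nonempty
  finDiv : FinDiv prm
  cl_surj : Function.Surjective cl
  cl_zero_iff : ∀ D : prm →₀ ℤ, cl D = 0 ↔ ∃ f : L, f ≠ 0 ∧ ∀ ν : prm, D ν = ν.1.ord f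
  finSec : ∀ D : prm →₀ ℤ, Module.Finite ℂ (secD prm D)
  h0_cl : ∀ D : prm →₀ ℤ, h0 (cl D) = Module.finrank ℂ (secD prm D)
  h0_zero : h0 0 = 1
  local_iff : ∀ x ∈ pts, ∀ f : L, f ∈ x ↔ ∀ ν ∈ prm, Thr x ν → 0 ≤ ν.ord f
  factorial : ∀ x ∈ pts, ∀ D : prm →₀ ℤ, ∃ f : L, f ≠ 0 ∧
    ∀ ν : prm, Thr x ν.1 → D ν = ν.1.ord f
  centre : ∀ V : ValuationSubring L, (∀ c : ℂ, algebraMap ℂ L c ∈ V) →
    ∃ x ∈ pts, ∀ f ∈ x, f ∈ V
  -- numerical facts
  symm : ∀ a b, form a b = form b a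
  parity : ∀ D, Even (form D D + form K D)
  rr : ∀ D, 2 * χ + form D (D - K) ≤ 2 * ((h0 D : ℤ) + h0 (K - D))
  -- the ample class
  A_sq : 0 < form A A
  hodge : ∀ D, form A D = 0 → form D D < 0 ∨ ∀ E, form D E = 0
  A_pos : ∀ ν : prm, 1 ≤ form A (cl (Finsupp.single ν 1))
  serre : ∀ F : Λ, ∃ n0 : ℕ, ∀ n : ℕ, n0 ≤ n →
    h0 (K - (n • A + F)) = 0 ∧
    2 * (h0 (n • A + F) : ℤ) = 2 * χ + form (n • A + F) (n • A + F - K) ∧
    ∀ D : prm →₀ ℤ, cl D = n • A + F → ∀ x ∈ pts, ∃ f, GenAt prm x D f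
  A_bpf : ∀ D : prm →₀ ℤ, cl D = A → ∀ x ∈ pts, ∃ f, GenAt prm x D f
  -- curves
  C1 : ∀ (ν : prm) (D : Λ), form D (cl (Finsupp.single ν 1)) < 0 →
    h0 D = h0 (D - cl (Finsupp.single ν 1))
  C1' : ∀ ν μ : prm, ν ≠ μ → 0 ≤ form (cl (Finsupp.single ν 1)) (cl (Finsupp.single μ 1))
  C2 : ∀ (ν : prm) (D : Λ), 0 ≤ form D (cl (Finsupp.single ν 1)) →
    (h0 D : ℤ) ≤ h0 (D - cl (Finsupp.single ν 1)) + form D (cl (Finsupp.single ν 1)) + 1
  pa_nonneg : ∀ ν : prm, 0 ≤ 2 + form (cl (Finsupp.single ν 1)) (cl (Finsupp.single ν 1)) +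
    form K (cl (Finsupp.single ν 1))
  C3 : ∀ D E : prm →₀ ℤ, (∀ ν, 0 ≤ D ν) → (∀ ν, 0 ≤ E ν) → (∀ ν, D ν = 0 ∨ E ν = 0) →
    ∀ x ∈ pts, (∃ ν : prm, Thr x ν.1 ∧ 0 < D ν) → (∃ ν : prm, Thr x ν.1 ∧ 0 < E ν) →
      1 ≤ form (cl D) (cl E)
  C4 : ∀ ν : prm, ∃ c0 : ℤ, ∀ D : Λ, c0 ≤ form D (cl (Finsupp.single ν 1)) →
    2 * (h0 D : ℤ) ≤ 2 * h0 (D - cl (Finsupp.single ν 1)) +
      2 * form D (cl (Finsupp.single ν 1)) -
      form (cl (Finsupp.single ν 1)) (cl (Finsupp.single ν 1)) -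
      form K (cl (Finsupp.single ν 1))

attribute [instance] SurfG.grp

section

variable {L : Type} [Field L] [Algebra ℂ L]

/-- `S'` is the blow-up of the surface `S` at the closed point `x`. -/
structure BlowUpG (S : SurfG L) (x : Subalgebra ℂ L) (S' : SurfG L) where
  mem : x ∈ S.pts
  /-- the exceptional curve -/
  E : DVal L
  E_notMem : E ∉ S.prm
  prm_eq : S'.prm = insert E S.prm
  /-- the other points are points of the blow-up -/
  pts_old : ∀ y ∈ S.pts, y ≠ x → y ∈ S'.pts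
  /-- the class group of the blow-up: `(D, j)` is the class of `π* D + j E` -/
  φ : (S.Λ × ℤ) ≃+ S'.Λ
  form_eq : ∀ a b : S.Λ × ℤ, S'.form (φ a) (φ b) = S.form a.1 b.1 - a.2 * b.2
  K_eq : S'.K = φ (S.K, 1)
  χ_eq : S'.χ = S.χ
  cl_E : ∀ h : E ∈ S'.prm, S'.cl (Finsupp.single ⟨E, h⟩ 1) = φ (0, 1)
  /-- the multiplicity at `x` -/
  mult : S.prm → ℕ
  mult_pos : ∀ ν : S.prm, 0 < mult ν ↔ Thr x ν.1
  cl_old : ∀ (ν : S.prm) (h : ν.1 ∈ S'.prm), S'.cl (Finsupp.single ⟨ν.1, h⟩ 1) =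
    φ (S.cl (Finsupp.single ν 1), -(mult ν : ℤ))
  h0_nonneg : ∀ (D : S.Λ) (j : ℕ), S'.h0 (φ (D, j)) = S.h0 D
  h0_neg : ∀ D : S.prm →₀ ℤ, S'.h0 (φ (S.cl D, -1)) < S.h0 (S.cl D) ↔
    ∃ f, GenAt S.prm x D f

/-- The family `𝒮` of surfaces is closed under blow-ups of closed points. -/
def BlowUpClosedG (𝒮 : SurfG L → Prop) : Prop :=
  ∀ S, 𝒮 S → ∀ x ∈ S.pts, ∃ S', 𝒮 S' ∧ Nonempty (BlowUpG S x S')

/-- Irregularity zero. -/
structure SurfG.IsReg (S : SurfG L) : Prop where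
  fin : Module.Finite ℤ S.Λ
  χ_eq : S.χ = 1 + S.h0 S.K
  num : ∀ D, (∀ E, S.form D E = 0) → ∃ n : ℕ, 0 < n ∧ n • D = 0

/-- `χ(𝒪) ≥ 1`, and if `χ(𝒪) = 1` then there are infinitely many numerically trivial classes. -/
structure SurfG.IsPos (S : SurfG L) : Prop where
  χ_pos : 1 ≤ S.χ
  inf : S.χ = 1 → {D : S.Λ | ∀ E, S.form D E = 0}.Infinite

/-- There are infinitely many classes of divisors `D` on `Y` such that `D` and `-D` are
pseudo-effective, i.e. infinitely many numerically trivial classes. -/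
def InfiniteNumTrivial (Y : NormalModel L) : Prop :=
  ∃ D : ℕ → DVal L → ℤ, (∀ i, {ν | ν ∈ primes Y ∧ D i ν ≠ 0}.Finite) ∧
    (∀ i, PseudoEff Y (fun ν => (D i ν : ℝ)) ∧ PseudoEff Y (fun ν => -(D i ν : ℝ))) ∧
    ∀ i j, i ≠ j → ¬ ∃ f : L, f ≠ 0 ∧ ∀ ν ∈ primes Y, D i ν - D j ν = ν.ord f

/-- `χ(𝒪_Y) ≥ 1` (the constant term of the Hilbert polynomial), and if `χ(𝒪_Y) = 1` then there are
infinitely many numerically trivial classes. -/
def ChiPos (Y : NormalModel L) : Prop :=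
  ∃ (c d e : ℤ) (n₀ : ℕ), 1 ≤ c ∧ (c = 1 → InfiniteNumTrivial Y) ∧ ∀ n : ℕ, n₀ ≤ n →
    2 * (h0Y Y (fun ν => n * hypZ Y ν) : ℤ) = 2 * c + d * n ^ 2 + e * n

/-- **Target of part B++.** -/
def SurfaceModelsG : Prop :=
  ∀ (F : Type) [Field F] [Algebra ℂ F] (Y : NormalModel F), IsSmoothSurface Y →
    ∃ 𝒮 : SurfG F → Prop, BlowUpClosedG 𝒮 ∧
      (Regular Y → ∀ S, 𝒮 S → S.IsReg) ∧ (ChiPos Y → ∀ S, 𝒮 S → S.IsPos) ∧
      ∀ T : Set (DVal F), T.Finite → (∀ ν ∈ T, ν.Divisorial) →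
        ∃ S, 𝒮 S ∧ T ⊆ S.prm ∧ primes Y ⊆ S.prm ∧
          (S.prm \ primes Y).Finite ∧ (∀ ν ∈ S.prm, ν.Divisorial) ∧
          ∀ ω : TopForm F, ω ≠ 0 → ∃ D : S.prm →₀ ℤ, S.cl D = S.K ∧
            ∀ ν : S.prm, D ν = canOrd ν.1 ω

/-- The degree with respect to the ample class. -/
theorem SurfG.hasDegree (S : SurfG L) : HasDegree S.prm := by
  classical
  refine ⟨fun ν => if h : ν ∈ S.prm then
    (S.form S.A (S.cl (Finsupp.single ⟨ν, h⟩ 1))).toNat else 0, ?_, ?_⟩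
  · intro ν hν
    have h1 := S.A_pos ⟨ν, hν⟩
    simp only [hν, dif_pos]
    omega
  · intro f hf
    have hfin : {ν : S.prm | ν.1.ord f ≠ 0}.Finite := by
      have h1 := S.finDiv f hf
      refine Set.Finite.of_finite_image (f := Subtype.val) (h1.subset ?_)
        Subtype.val_injective.injOn
      rintro _ ⟨ν, hν, rfl⟩
      exact ⟨ν.2, hν⟩
    let D : S.prm →₀ ℤ := Finsupp.ofSupportFinite (fun ν : S.prm => ν.1.ord f) hfin
    have hD : S.cl D = 0 := (S.cl_zero_iff D).2 ⟨f, hf, fun ν => rfl⟩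
    have h2 : S.cl D = D.sum fun ν m => m • S.cl (Finsupp.single ν 1) := by
      conv_lhs => rw [← Finsupp.sum_single D]
      rw [Finsupp.sum, map_sum, Finsupp.sum]
      refine Finset.sum_congr rfl fun ν _ => ?_
      rw [← map_zsmul, Finsupp.smul_single, smul_eq_mul, mul_one]
    have h3 : ∑ ν ∈ D.support, D ν * S.form S.A (S.cl (Finsupp.single ν 1)) = 0 := by
      have h4 := congrArg (S.form S.A) (h2.symm.trans hD)
      rw [Finsupp.sum, map_sum, map_zero] at h4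
      rw [← h4]
      refine Finset.sum_congr rfl fun ν _ => ?_
      rw [map_smul, smul_eq_mul]
    rw [finsum_mem_eq_sum_of_inter_support_eq (t := D.support.map (Function.Embedding.subtype _))]
    · rw [Finset.sum_map, ← h3]
      refine Finset.sum_congr rfl fun ν _ => ?_
      have h5 := S.A_pos ν
      simp only [Function.Embedding.subtype_apply, ν.2, dif_pos, Subtype.coe_eta]
      rw [Int.toNat_of_nonneg (by omega)]
      rfl
    · ext ν
      simp only [Set.mem_inter_iff, Function.mem_support, Finset.coe_map, Set.mem_image,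
        Finset.mem_coe, Finsupp.mem_support_iff]
      constructor
      · rintro ⟨h5, h6⟩
        refine ⟨⟨⟨ν, h5⟩, ?_, rfl⟩, h6⟩
        intro h7
        apply h6
        have h8 : ν.ord f = 0 := h7
        rw [h8, zero_mul]
      · rintro ⟨⟨μ, _, rfl⟩, h6⟩
        exact ⟨μ.2, h6⟩

end

end Pool.Agent.LibLG
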